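import Pool.Agent.H33.VmvDivisor

/-!
# Counting sequences by their initial segments; divisor bound (MP_52e316_nt, row CNX)
-/

set_option autoImplicit false

namespace Pool.Agent.H20.GU

open Classical in
/-- a set of sequences with few continuations of every initial segment is small -/
theorem seg_count {α : Type} {m : ℕ} (A : Finset (Fin m → α)) (B : Fin m → ℝ)
    (hB : ∀ r, 0 ≤ B r)
    (H : ∀ (r : Fin m) (x : Fin m → α), x ∈ A → ∃ V : Finset α, (V.card : ℝ) ≤ B r ∧
      ∀ z ∈ A, (∀ j, j < r → z j = x j) → z r ∈ V) :
    (A.card : ℝ) ≤ ∏ r, B r := by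
  set g : ℕ → (Fin m → α) → Fin m → Option α :=
    fun k x j => if (j : ℕ) < k then some (x j) else none with hg
  have key : ∀ k ≤ m, ((A.image (g k)).card : ℝ) ≤ ∏ r : Fin m, if (r : ℕ) < k then B r else 1 := by
    intro k
    induction k with
    | zero =>
      intro _
      have h1 : (A.image (g 0)).card ≤ 1 := by
        rw [Finset.card_le_one]
        intro a ha b hb
        rw [Finset.mem_image] at ha hb
        obtain ⟨x, -, rfl⟩ := ha
        obtain ⟨z, -, rfl⟩ := hb
        funext j
        simp [hg]
      have h2 : ((A.image (g 0)).card : ℝ) ≤ 1 := by exact_mod_cast h1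
      simpa using h2
    | succ k ih =>
      intro hk
      have ih' := ih (by omega)
      set r : Fin m := ⟨k, hk⟩ with hr
      have h1 : ∏ i : Fin m, (if (i : ℕ) < k + 1 then B i else 1) =
          B r * ∏ i : Fin m, (if (i : ℕ) < k then B i else 1) := by
        rw [← Finset.mul_prod_erase Finset.univ _ (Finset.mem_univ r),
          ← Finset.mul_prod_erase Finset.univ (fun i : Fin m => if (i : ℕ) < k then B i else 1)
            (Finset.mem_univ r)]
        have h2 : (r : ℕ) = k := rfl
        rw [if_pos (by omega), if_neg (by omega), one_mul]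
        congr 1
        refine Finset.prod_congr rfl fun i hi => ?_
        have h3 : (i : ℕ) ≠ k := by
          intro h4
          exact (Finset.mem_erase.1 hi).1 (Fin.ext h4)
        by_cases h4 : (i : ℕ) < k
        · rw [if_pos (by omega), if_pos h4]
        · rw [if_neg (by omega), if_neg h4]
      rw [h1]
      have h2 : ((A.image (g (k + 1))).card : ℝ) ≤ B r * ((A.image (g k)).card : ℝ) := by
        set ρ : (Fin m → Option α) → Fin m → Option α :=
          fun u j => if (j : ℕ) < k then u j else none with hρ
        have hρg : ∀ x, ρ (g (k + 1) x) = g k x := by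
          intro x
          funext j
          simp only [hρ, hg]
          by_cases h4 : (j : ℕ) < k
          · rw [if_pos h4, if_pos (by omega), if_pos h4]
          · rw [if_neg h4, if_neg h4]
        have hmaps : ∀ a ∈ A.image (g (k + 1)), ρ a ∈ A.image (g k) := by
          intro a ha
          obtain ⟨x, hx, rfl⟩ := Finset.mem_image.1 ha
          rw [hρg]
          exact Finset.mem_image_of_mem _ hx
        rw [Finset.card_eq_sum_card_fiberwise hmaps]
        push_cast
        have h3 : ∀ b ∈ A.image (g k),
            ((({a ∈ A.image (g (k + 1)) | ρ a = b}).card : ℕ) : ℝ) ≤ B r := by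
          intro b hb
          obtain ⟨x, hx, rfl⟩ := Finset.mem_image.1 hb
          obtain ⟨V, hV, hVz⟩ := H r x hx
          have h4 : ({a ∈ A.image (g (k + 1)) | ρ a = g k x}).card ≤ (V.image some).card := by
            refine Finset.card_le_card_of_injOn (fun a => a r) ?_ ?_
            · intro a ha
              rw [Finset.mem_coe, Finset.mem_filter] at ha
              obtain ⟨ha1, ha2⟩ := ha
              obtain ⟨z, hz, rfl⟩ := Finset.mem_image.1 ha1
              rw [hρg] at ha2
              have h5 : ∀ j, j < r → z j = x j := by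
                intro j hj
                have h6 := congrFun ha2 j
                have h7 : (j : ℕ) < k := hj
                simp only [hg, if_pos h7] at h6
                exact Option.some_injective _ h6
              rw [Finset.mem_coe, Finset.mem_image]
              refine ⟨z r, hVz z hz h5, ?_⟩
              have h6 : (r : ℕ) < k + 1 := Nat.lt_succ_self k
              simp only [hg, if_pos h6]
            · intro a ha a' ha' haa
              rw [Finset.mem_coe, Finset.mem_filter] at ha ha'
              obtain ⟨z, hz, rfl⟩ := Finset.mem_image.1 ha.1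
              obtain ⟨z', hz', rfl⟩ := Finset.mem_image.1 ha'.1
              have h5 := ha.2.trans ha'.2.symm
              rw [hρg, hρg] at h5
              funext j
              by_cases h6 : (j : ℕ) < k
              · have h7 := congrFun h5 j
                simp only [hg, if_pos h6] at h7
                simp only [hg, if_pos (show (j : ℕ) < k + 1 by omega)]
                exact h7
              · by_cases h7 : (j : ℕ) = k
                · have h8 : j = r := Fin.ext h7
                  rw [h8]
                  exact haa
                · simp only [hg, if_neg (show ¬ (j : ℕ) < k + 1 by omega)]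
          have h5 : (V.image some).card ≤ V.card := Finset.card_image_le
          have h6 : ((({a ∈ A.image (g (k + 1)) | ρ a = g k x}).card : ℕ) : ℝ) ≤ V.card := by
            exact_mod_cast h4.trans h5
          exact h6.trans hV
        refine (Finset.sum_le_card_nsmul _ _ _ h3).trans ?_
        rw [nsmul_eq_mul, mul_comm]
      exact h2.trans (mul_le_mul_of_nonneg_left ih' (hB r))
  have h1 := key m le_rfl
  have h2 : (A.image (g m)).card = A.card := by
    refine Finset.card_image_of_injective _ ?_
    intro x z hxz
    funext j
    have h3 := congrFun hxz j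
    simp only [hg, if_pos j.2] at h3
    exact Option.some_injective _ h3
  rw [h2] at h1
  refine h1.trans (le_of_eq ?_)
  exact Finset.prod_congr rfl fun i _ => if_pos i.2

/-- a power of the number of the divisors is smaller than any power of the number -/
theorem div_pow (m : ℕ) (ε : ℝ) (hε : 0 < ε) : ∃ C : ℝ, 0 < C ∧ ∀ N : ℕ, 1 ≤ N →
    ((N.divisors.card : ℕ) : ℝ) ^ m ≤ C * (N : ℝ) ^ ε := by
  set K : ℕ := ⌈(m : ℝ) / ε⌉₊ + 1 with hK
  obtain ⟨C, hC, hd⟩ := Pool.Agent.H33.Vmv.card_divisors_pow_le K
  have hK0 : (0 : ℝ) < K := by
    rw [hK]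
    positivity
  have hK1 : (m : ℝ) / K ≤ ε := by
    have h1 : (m : ℝ) / ε ≤ K := by
      rw [hK]
      push_cast
      linarith [Nat.le_ceil ((m : ℝ) / ε)]
    rw [div_le_iff₀ hε] at h1
    rw [div_le_iff₀ hK0]
    linarith
  have hC0 : (0 : ℝ) < C := by exact_mod_cast hC
  refine ⟨(C : ℝ) ^ ((m : ℝ) / K), by positivity, fun N hN => ?_⟩
  have h1 : ((N.divisors.card : ℕ) : ℝ) ^ K ≤ C * N := by exact_mod_cast hd N hN
  have hN1 : (1 : ℝ) ≤ N := by exact_mod_cast hN
  have h2 : ((N.divisors.card : ℕ) : ℝ) ^ m =
      (((N.divisors.card : ℕ) : ℝ) ^ K) ^ ((m : ℝ) / K) := by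
    rw [← Real.rpow_natCast, ← Real.rpow_natCast, ← Real.rpow_mul (by positivity)]
    congr 1
    field_simp
  rw [h2]
  calc (((N.divisors.card : ℕ) : ℝ) ^ K) ^ ((m : ℝ) / K) ≤ (C * N : ℝ) ^ ((m : ℝ) / K) :=
        Real.rpow_le_rpow (by positivity) h1 (by positivity)
    _ = (C : ℝ) ^ ((m : ℝ) / K) * (N : ℝ) ^ ((m : ℝ) / K) :=
        Real.mul_rpow (by positivity) (by positivity)
    _ ≤ (C : ℝ) ^ ((m : ℝ) / K) * (N : ℝ) ^ ε :=
        mul_le_mul_of_nonneg_left (Real.rpow_le_rpow_of_exponent_le hN1 hK1) (by positivity)

end Pool.Agent.H20.GU
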