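import Pool.Agent.H20.GU.Step
import Pool.Agent.H20.GU.Seg
import Pool.Agent.H67.GZ.STA
import Pool.Agent.H34.GU.Targets1

/-!
# Row CNX of the board gu: integer matrices of an increasing box with a given determinant
(MP_52e316_nt)
-/

set_option autoImplicit false

namespace Pool.Agent.H20.GU

open Pool.Agent.H34.GM Pool.Agent.H34.GZ Pool.Agent.H34.GU Pool.Agent.H67.GZ
open scoped Matrix

/-- the vector of the lattice in the Euclidean space -/
noncomputable def fE {m : ℕ} (b : Mat m) : (Fin m → ℤ) →+ EuclideanSpace ℝ (Fin m) where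
  toFun v := WithLp.toLp 2 (vb v b)
  map_zero' := by
    have h1 : vb (0 : Fin m → ℤ) b = 0 := by
      funext l
      simp [vb, Matrix.vecMul, dotProduct]
    rw [h1]
    rfl
  map_add' u v := by
    have h1 : vb (u + v) b = vb u b + vb v b := by
      funext l
      simp [vb, Matrix.vecMul, dotProduct, add_mul, Finset.sum_add_distrib]
    rw [h1]
    rfl

theorem fE_apply {m : ℕ} (b : Mat m) (v : Fin m → ℤ) : fE b v = WithLp.toLp 2 (vb v b) := rfl

theorem fE_norm {m : ℕ} (b : Mat m) (v : Fin m → ℤ) : ‖fE b v‖ = rowN (vb v b) := by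
  rw [rowN_eq]
  rfl

/-- the real span of the first rows -/
noncomputable def WB {m : ℕ} (b : Mat m) (x : Fin m → Fin m → ℤ) (r : Fin m) :
    Submodule ℝ (EuclideanSpace ℝ (Fin m)) :=
  Submodule.span ℝ (Set.range fun i : Fin (r : ℕ) => fE b (x ⟨i, i.2.trans r.2⟩))

theorem notMem_WB {m : ℕ} (b : Mat m) (x : ZM m) (hb : b.det ≠ 0) (hx : x.det ≠ 0) (r : Fin m) :
    fE b (x r) ∉ WB b x r := by
  have h1 : IsUnit (cR x * b) := by
    rw [Matrix.isUnit_iff_isUnit_det, Matrix.det_mul, isUnit_iff_ne_zero]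
    refine mul_ne_zero ?_ hb
    have h2 : (cR x).det = ((x.det : ℤ) : ℝ) := by
      unfold cR
      exact (RingHom.map_det (Int.castRingHom ℝ) x).symm
    rw [h2]
    exact_mod_cast hx
  have h2 : LinearIndependent ℝ (cR x * b).row := Matrix.linearIndependent_rows_iff_isUnit.2 h1
  have h3 : LinearIndependent ℝ fun j => fE b (x j) := by
    have h4 := h2.map' (WithLp.linearEquiv 2 ℝ (Fin m → ℝ)).symm.toLinearMap
      (LinearEquiv.ker _)
    have h5 : (fun j => fE b (x j)) =
        (WithLp.linearEquiv 2 ℝ (Fin m → ℝ)).symm.toLinearMap ∘ (cR x * b).row := by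
      funext j
      rw [fE_apply, ← vb_row]
      rfl
    rw [h5]
    exact h4
  intro h4
  have h5 : r ∉ {j : Fin m | j < r} := fun h => lt_irrefl r h
  refine h3.notMem_span_image h5 ?_
  refine Submodule.span_mono ?_ h4
  rintro _ ⟨i, rfl⟩
  exact ⟨⟨i, i.2.trans r.2⟩, i.2, rfl⟩

theorem Lx_WB {m : ℕ} (b : Mat m) (x : ZM m) (r : Fin m) (w : Fin m → ℤ) (hw : w ∈ Lx x r) :
    fE b w ∈ WB b x r := by
  obtain ⟨q, hq, hwl⟩ := (Pool.Agent.H67.GZ.mem_Lx x r w).1 hw
  have h1 : ∀ l, (w l : ℝ) = ∑ j, ((q j : ℚ) : ℝ) * (x j l : ℝ) := by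
    intro l
    have h2 : (((w l : ℤ) : ℚ) : ℝ) = ((∑ j, q j * ((x j l : ℤ) : ℚ) : ℚ) : ℝ) := by
      rw [hwl l]
    push_cast at h2
    exact h2
  have h2 : fE b w = ∑ j, ((q j : ℚ) : ℝ) • fE b (x j) := by
    rw [fE_apply, vb_comb w x b _ h1, WithLp.toLp_sum]
    refine Finset.sum_congr rfl fun j _ => ?_
    rw [WithLp.toLp_smul]
    rfl
  rw [h2]
  refine Submodule.sum_mem _ fun j _ => ?_
  by_cases hj : (j : ℕ) < r
  · exact Submodule.smul_mem _ _ (Submodule.subset_span ⟨⟨j, hj⟩, rfl⟩)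
  · rw [hq j (not_lt.1 hj), Rat.cast_zero, zero_smul]
    exact Submodule.zero_mem _

/-- additive maps of `Z^m` are matrices -/
theorem hom_vecMul {m : ℕ} (φ : (Fin m → ℤ) →+ (Fin m → ℤ)) (v : Fin m → ℤ) :
    φ v = v ᵥ* (Matrix.of fun j => φ (Pi.single j 1)) := by
  have h1 : v = ∑ j, v j • (Pi.single j 1 : Fin m → ℤ) := by
    funext l
    rw [Finset.sum_apply, Finset.sum_eq_single l]
    · simp
    · intro j _ hj
      rw [Pi.smul_apply, Pi.single_eq_of_ne (Ne.symm hj), smul_zero]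
    · intro h
      exact absurd (Finset.mem_univ l) h
  conv_lhs => rw [h1]
  rw [map_sum]
  funext l
  rw [Finset.sum_apply]
  simp only [Matrix.vecMul, dotProduct, Matrix.of_apply, map_zsmul, Pi.smul_apply, smul_eq_mul]

theorem natAbs_prod {m : ℕ} (f : Fin m → ℤ) : (∏ i, f i).natAbs = ∏ i, (f i).natAbs :=
  map_prod Int.natAbsHom f Finset.univ

/-- the successive contents of the rows -/
theorem contents (hADB : T_ADB) {m : ℕ} (x : ZM m) (hx : x.det ≠ 0) : ∃ h : Fin m → ℕ,
    ∏ i, h i = x.det.natAbs ∧ ∀ r : Fin m, ∃ w : Fin m → ℤ, x r - (h r : ℤ) • w ∈ Lx x r := by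
  obtain ⟨e, he⟩ := hADB m x hx
  set E0 : ZM m := Matrix.of fun j => e (Pi.single j 1) with hE0
  set E1 : ZM m := Matrix.of fun j => e.symm (Pi.single j 1) with hE1
  set t : ZM m := Matrix.of fun r => e.symm (x r) with ht
  have hev : ∀ v, e v = v ᵥ* E0 := fun v => hom_vecMul (e : (Fin m → ℤ) →+ (Fin m → ℤ)) v
  have hev' : ∀ v, e.symm v = v ᵥ* E1 :=
    fun v => hom_vecMul (e.symm : (Fin m → ℤ) →+ (Fin m → ℤ)) v
  have h1 : E0 * E1 = 1 := by
    ext i j
    have h2 : (Pi.single i 1 : Fin m → ℤ) ᵥ* (E0 * E1) = Pi.single i 1 := by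
      rw [← Matrix.vecMul_vecMul, ← hev, ← hev', e.symm_apply_apply]
    rw [Matrix.single_one_vecMul] at h2
    have h3 := congrFun h2 j
    rw [Matrix.one_apply]
    have h4 : (E0 * E1) i j = (Pi.single i 1 : Fin m → ℤ) j := h3
    rw [h4, Pi.single_apply]
    by_cases h5 : i = j
    · rw [if_pos h5, if_pos h5.symm]
    · rw [if_neg h5, if_neg (Ne.symm h5)]
  have h2 : E0.det.natAbs = 1 := by
    have h3 := congrArg Matrix.det h1
    rw [Matrix.det_mul, Matrix.det_one] at h3
    exact Int.natAbs_of_isUnit (IsUnit.of_mul_eq_one _ h3)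
  have h3 : x = t * E0 := by
    ext r l
    have h4 : (t * E0) r = t r ᵥ* E0 := Matrix.mul_apply_eq_vecMul _ _ _
    rw [h4, ← hev]
    have h5 : t r = e.symm (x r) := rfl
    rw [h5, e.apply_symm_apply]
  have h4 : ∀ r j : Fin m, r < j → t r j = 0 := by
    intro r j hrj
    have h5 : x r ∈ Lx x ((r : ℕ) + 1) := by
      rw [Pool.Agent.H67.GZ.mem_Lx]
      refine ⟨Pi.single r 1, fun j hj => ?_, fun l => ?_⟩
      · refine Pi.single_eq_of_ne ?_ _
        rintro rfl
        omega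
      · rw [Finset.sum_eq_single r]
        · rw [Pi.single_eq_same, one_mul]
        · intro i _ hi
          rw [Pi.single_eq_of_ne hi, zero_mul]
        · intro hj'
          exact absurd (Finset.mem_univ r) hj'
    rw [← he ((r : ℕ) + 1) r.2, AddSubgroup.mem_map] at h5
    obtain ⟨u, hu, hue⟩ := h5
    have h6 : t r = u := by
      have h7 : t r = e.symm (x r) := rfl
      rw [h7, ← hue]
      exact e.symm_apply_apply u
    rw [h6]
    exact hu j hrj
  have h5 : t.det = ∏ i, t i i := by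
    refine Matrix.det_of_isLowerTriangular t ?_
    intro i j hij
    exact h4 i j hij
  refine ⟨fun r => (t r r).natAbs, ?_, fun r => ?_⟩
  · rw [← natAbs_prod, ← h5]
    conv_rhs => rw [h3]
    rw [Matrix.det_mul, Int.natAbs_mul, h2, mul_one]
  · refine ⟨(t r r).sign • e (Pi.single r 1), ?_⟩
    rw [smul_smul]
    have h6 : ((t r r).natAbs : ℤ) * (t r r).sign = t r r := by
      rw [mul_comm]
      exact Int.sign_mul_natAbs _
    rw [h6, ← he r r.2.le, AddSubgroup.mem_map]
    refine ⟨t r - t r r • (Pi.single r 1 : Fin m → ℤ), ?_, ?_⟩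
    · intro j hj
      rw [Pi.sub_apply, Pi.smul_apply]
      rcases eq_or_lt_of_le hj with hj1 | hj1
      · have h7 : j = r := Fin.ext hj1.symm
        rw [h7, Pi.single_eq_same, smul_eq_mul, mul_one, sub_self]
      · rw [h4 r j hj1, Pi.single_eq_of_ne (by
          rintro rfl
          omega), smul_zero, sub_zero]
    · have h7 : t r = e.symm (x r) := rfl
      change e (t r - t r r • (Pi.single r 1 : Fin m → ℤ)) = _
      rw [map_sub, map_zsmul, h7, e.apply_symm_apply]

open Classical in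
/-- the number of the matrices with given contents -/
theorem count_contents (hCNT : T_CNT) {m : ℕ} (b n : Mat m) (a : Fin m → ℝ) (k : Mat m)
    (hS : Sgl b n a k) (R : Fin m → ℝ) (hR0 : ∀ i, 0 < R i) (hRm : Monotone R) (h : Fin m → ℕ)
    (hh : ∀ i, 1 ≤ h i) (A : Finset (Fin m → Fin m → ℤ))
    (hA : ∀ x ∈ A, inBox b R x ∧ ∀ r : Fin m, ∃ w : Fin m → ℤ, x r - (h r : ℤ) • w ∈ Lx x r) :
    (A.card : ℝ) ≤ ∏ r : Fin m, (4 * ∏ j, (1 + 2 * ((m + 2) * R r) / a j)) / h r := by
  obtain ⟨hball, -, -, hdet⟩ := hCNT m b n a k hS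
  have hb : b.det ≠ 0 := by
    have h1 : 0 < |b.det| := by
      rw [hdet]
      exact Finset.prod_pos fun i _ => hS.pos i
    exact abs_pos.1 h1
  have hfin : ∀ ρ : ℝ, {v | ‖fE b v‖ ≤ ρ}.Finite := by
    intro ρ
    simp only [fE_norm]
    rcases lt_or_ge ρ 0 with hρ | hρ
    · have h1 : {w : Fin m → ℤ | rowN (vb w b) ≤ ρ} = ∅ := by
        ext w
        refine ⟨fun h => ?_, fun h => absurd h (Set.notMem_empty w)⟩
        exact absurd (lt_of_lt_of_le hρ (rowN_nonneg _)) (not_lt.2 h)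
      rw [h1]
      exact Set.finite_empty
    · exact (hball ρ hρ).1
  have hm0 : (0 : ℝ) ≤ m := Nat.cast_nonneg m
  have hpos : ∀ (r j : Fin m), 0 ≤ 1 + 2 * ((m + 2) * R r) / a j := by
    intro r j
    have h1 := hS.pos j
    have h2 := hR0 r
    positivity
  refine seg_count A _ (fun r => ?_) ?_
  · have h1 : 0 ≤ ∏ j, (1 + 2 * ((m + 2) * R r) / a j) :=
      Finset.prod_nonneg fun j _ => hpos r j
    positivity
  intro r x hx
  have hPf : {v | ‖fE b v‖ ≤ R r ∧ fE b v ∉ WB b x r ∧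
      ∃ w, fE b (v - (h r : ℤ) • w) ∈ WB b x r}.Finite := (hfin (R r)).subset fun v hv => hv.1
  have hhr : (0 : ℝ) < h r := by exact_mod_cast hh r
  refine ⟨hPf.toFinset, ?_, ?_⟩
  · have h1 := step (fE b) hfin (fun i : Fin (r : ℕ) => x ⟨i, i.2.trans r.2⟩) (R r)
      (by
        intro i
        rw [fE_norm]
        exact ((hA x hx).1.2 _).trans (hRm (Fin.le_def.2 i.2.le))) (h r) (hh r) (WB b x r) rfl
    rw [Set.ncard_eq_toFinset_card _ hPf] at h1
    rw [le_div_iff₀ hhr, mul_comm]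
    refine h1.trans ?_
    refine mul_le_mul_of_nonneg_left ?_ (by norm_num)
    simp only [fE_norm]
    have h2 := (hball (((r : ℕ) + 2) * R r) (by
      have := hR0 r
      positivity)).2
    refine h2.trans ?_
    refine Finset.prod_le_prod (fun j _ => ?_) fun j _ => ?_
    · have h3 := hS.pos j
      have h4 := hR0 r
      positivity
    · have h3 := hS.pos j
      have h4 := hR0 r
      have h5 : ((r : ℕ) : ℝ) ≤ m := by exact_mod_cast r.2.le
      gcongr
  · intro z hz hzx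
    have hW : WB b z r = WB b x r := by
      unfold WB
      congr 1
      refine congrArg Set.range ?_
      funext i
      rw [hzx ⟨i, i.2.trans r.2⟩ i.2]
    rw [Set.Finite.mem_toFinset]
    obtain ⟨hz1, hz2⟩ := hA z hz
    refine ⟨?_, ?_, ?_⟩
    · rw [fE_norm]
      exact hz1.2 r
    · rw [← hW]
      exact notMem_WB b z hb hz1.1 r
    · obtain ⟨w, hw⟩ := hz2 r
      refine ⟨w, ?_⟩
      rw [← hW]
      exact Lx_WB b z r _ hw

open Classical in
theorem pf_CNX (hCNT : T_CNT) (hADB : T_ADB) : T_CNX := by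
  intro m hm ε hε
  obtain ⟨C0, hC0, hdiv⟩ := div_pow m ε hε
  set K0 : ℝ := (4 * (2 * ((m : ℝ) + 2)) ^ m) ^ m with hK0
  have hK0p : 0 < K0 := by positivity
  refine ⟨C0 * K0, by positivity, ?_⟩
  intro N hN b n a k hS R hR0 hRm
  have hN0 : (0 : ℝ) < N := by exact_mod_cast hN
  obtain ⟨hball, -, -, hdet⟩ := hCNT m b n a k hS
  -- the set is finite
  have hfin : {x : Fin m → Fin m → ℤ | (Matrix.det (x : ZM m)).natAbs = N ∧
      inBox b R x}.Finite := by
    refine (Set.Finite.pi' fun i => (hball (R i) (hR0 i).le).1).subset ?_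
    intro x hx i
    exact hx.2.2 i
  set A : Finset (Fin m → Fin m → ℤ) := hfin.toFinset with hA
  have hAm : ∀ x : Fin m → Fin m → ℤ, x ∈ A ↔
      ((Matrix.det (x : ZM m)).natAbs = N ∧ inBox b R x) := by
    intro x
    rw [hA, Set.Finite.mem_toFinset]
    exact Iff.rfl
  have hfin' : {x : ZM m | x.det.natAbs = N ∧ inBox b R x}.Finite := hfin
  have hAA : hfin'.toFinset.card = A.card := rfl
  have hsum : ∑' x : ZM m, (if x.det.natAbs = N ∧ inBox b R x then (1 : ENNReal) else 0) =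
      (A.card : ENNReal) := by
    have h1 : ∑' x : ZM m, (if x.det.natAbs = N ∧ inBox b R x then (1 : ENNReal) else 0) =
        ∑ x ∈ hfin'.toFinset,
          (if x.det.natAbs = N ∧ inBox b R x then (1 : ENNReal) else 0) := by
      refine tsum_eq_sum ?_
      intro x hx
      rw [Set.Finite.mem_toFinset] at hx
      exact if_neg hx
    have h2 : ∀ x ∈ hfin'.toFinset,
        (if x.det.natAbs = N ∧ inBox b R x then (1 : ENNReal) else 0) = 1 := by
      intro x hx
      rw [Set.Finite.mem_toFinset] at hx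
      exact if_pos hx
    rw [h1, Finset.sum_congr rfl h2, Finset.sum_const, nsmul_eq_mul, mul_one, hAA]
  rw [hsum]
  -- the types
  set H0 : Finset (Fin m → ℕ) := (Fintype.piFinset fun _ : Fin m => N.divisors) with hH0
  set P : Fin m → ℝ := fun r => 4 * ∏ j, (1 + 2 * ((m + 2) * R r) / a j) with hP
  have hP0 : ∀ r, 0 ≤ P r := by
    intro r
    refine mul_nonneg (by norm_num) (Finset.prod_nonneg fun j _ => ?_)
    have h1 := hS.pos j
    have h2 := hR0 r
    positivity
  have hcov : A ⊆ H0.biUnion fun h => A.filter fun x => ∏ i, h i = N ∧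
      ∀ r : Fin m, ∃ w : Fin m → ℤ, x r - (h r : ℤ) • w ∈ Lx (x : ZM m) r := by
    intro x hx
    have h1 := (hAm x).1 hx
    obtain ⟨h, hh1, hh2⟩ := contents hADB (x : ZM m) h1.2.1
    rw [Finset.mem_biUnion]
    refine ⟨h, ?_, ?_⟩
    · rw [hH0, Fintype.mem_piFinset]
      intro i
      rw [Nat.mem_divisors]
      refine ⟨?_, by omega⟩
      have h2 : N = ∏ i, h i := by rw [hh1, h1.1]
      rw [h2]
      exact Finset.dvd_prod_of_mem h (Finset.mem_univ i)
    · rw [Finset.mem_filter]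
      exact ⟨hx, by rw [hh1, h1.1], hh2⟩
  have hone : ∀ h ∈ H0, ((A.filter fun x => ∏ i, h i = N ∧
      ∀ r : Fin m, ∃ w : Fin m → ℤ, x r - (h r : ℤ) • w ∈ Lx (x : ZM m) r).card : ℝ) ≤
      (∏ r, P r) / N := by
    intro h hh
    by_cases hprod : ∏ i, h i = N
    · have h1 := count_contents hCNT b n a k hS R hR0 hRm h (by
        intro i
        have h2 := Fintype.mem_piFinset.1 hh i
        exact Nat.pos_of_mem_divisors h2) (A.filter fun x => ∏ i, h i = N ∧
          ∀ r : Fin m, ∃ w : Fin m → ℤ, x r - (h r : ℤ) • w ∈ Lx (x : ZM m) r) (by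
        intro x hx
        rw [Finset.mem_filter] at hx
        exact ⟨((hAm x).1 hx.1).2, hx.2.2⟩)
      refine h1.trans (le_of_eq ?_)
      rw [Finset.prod_div_distrib]
      congr 1
      rw [← hprod]
      push_cast
      rfl
    · have h1 : (A.filter fun x => ∏ i, h i = N ∧
          ∀ r : Fin m, ∃ w : Fin m → ℤ, x r - (h r : ℤ) • w ∈ Lx (x : ZM m) r) = ∅ := by
        rw [Finset.filter_eq_empty_iff]
        intro x _ h2
        exact hprod h2.1
      rw [h1, Finset.card_empty, Nat.cast_zero]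
      exact div_nonneg (Finset.prod_nonneg fun r _ => hP0 r) hN0.le
  have hcard : (A.card : ℝ) ≤ ((N.divisors.card : ℕ) : ℝ) ^ m * ((∏ r, P r) / N) := by
    have h1 : A.card ≤ ∑ h ∈ H0, (A.filter fun x => ∏ i, h i = N ∧
        ∀ r : Fin m, ∃ w : Fin m → ℤ, x r - (h r : ℤ) • w ∈ Lx (x : ZM m) r).card :=
      (Finset.card_le_card hcov).trans Finset.card_biUnion_le
    have h2 : (A.card : ℝ) ≤ ∑ h ∈ H0, ((A.filter fun x => ∏ i, h i = N ∧
        ∀ r : Fin m, ∃ w : Fin m → ℤ, x r - (h r : ℤ) • w ∈ Lx (x : ZM m) r).card : ℝ) := by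
      exact_mod_cast h1
    refine h2.trans ((Finset.sum_le_card_nsmul _ _ _ hone).trans (le_of_eq ?_))
    rw [nsmul_eq_mul, hH0, Fintype.card_piFinset_const]
    push_cast
    rfl
  have hPle : ∏ r, P r ≤ K0 * ∏ i, ∏ j, (1 + R i / a j) := by
    have h1 : ∀ r, P r ≤ (4 * (2 * ((m : ℝ) + 2)) ^ m) * ∏ j, (1 + R r / a j) := by
      intro r
      have h2 : ∏ j, (1 + 2 * ((m + 2) * R r) / a j) ≤
          ∏ j : Fin m, ((2 * ((m : ℝ) + 2)) * (1 + R r / a j)) := by
        refine Finset.prod_le_prod (fun j _ => ?_) fun j _ => ?_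
        · have h3 := hS.pos j
          have h4 := hR0 r
          positivity
        · have h3 := hS.pos j
          have h5 : 2 * (((m : ℝ) + 2) * R r) / a j = (2 * ((m : ℝ) + 2)) * (R r / a j) := by
            ring
          have h6 : (0 : ℝ) ≤ m := Nat.cast_nonneg m
          have h7 : (2 * ((m : ℝ) + 2)) * (1 + R r / a j) =
              2 * ((m : ℝ) + 2) + (2 * ((m : ℝ) + 2)) * (R r / a j) := by ring
          rw [h5, h7]
          linarith
      rw [Finset.prod_mul_distrib, Finset.prod_const, Finset.card_univ, Fintype.card_fin] at h2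
      rw [hP]
      calc 4 * ∏ j, (1 + 2 * ((m + 2) * R r) / a j) ≤
          4 * ((2 * ((m : ℝ) + 2)) ^ m * ∏ j, (1 + R r / a j)) :=
            mul_le_mul_of_nonneg_left h2 (by norm_num)
        _ = _ := by ring
    have h2 : ∏ r, P r ≤
        ∏ r : Fin m, ((4 * (2 * ((m : ℝ) + 2)) ^ m) * ∏ j, (1 + R r / a j)) :=
      Finset.prod_le_prod (fun r _ => hP0 r) fun r _ => h1 r
    refine h2.trans (le_of_eq ?_)
    rw [Finset.prod_mul_distrib, Finset.prod_const, Finset.card_univ, Fintype.card_fin]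
  have hfinal : (A.card : ℝ) ≤ C0 * K0 * (N : ℝ) ^ (ε - 1) * ∏ i, ∏ j, (1 + R i / a j) := by
    have hG0 : 0 ≤ ∏ i, ∏ j, (1 + R i / a j) := by
      refine Finset.prod_nonneg fun i _ => Finset.prod_nonneg fun j _ => ?_
      have h3 := hS.pos j
      have h4 := hR0 i
      positivity
    calc (A.card : ℝ) ≤ ((N.divisors.card : ℕ) : ℝ) ^ m * ((∏ r, P r) / N) := hcard
      _ ≤ (C0 * (N : ℝ) ^ ε) * ((K0 * ∏ i, ∏ j, (1 + R i / a j)) / N) := by
          refine mul_le_mul (hdiv N hN) (div_le_div_of_nonneg_right hPle hN0.le) ?_ (by positivity)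
          exact div_nonneg (Finset.prod_nonneg fun r _ => hP0 r) hN0.le
      _ = C0 * K0 * ((N : ℝ) ^ ε / N) * ∏ i, ∏ j, (1 + R i / a j) := by ring
      _ = C0 * K0 * (N : ℝ) ^ (ε - 1) * ∏ i, ∏ j, (1 + R i / a j) := by
          rw [Real.rpow_sub_one hN0.ne']
  have h9 : (A.card : ENNReal) = ENNReal.ofReal (A.card : ℝ) := by
    rw [ENNReal.ofReal_natCast]
  rw [h9]
  exact ENNReal.ofReal_le_ofReal hfinal

end Pool.Agent.H20.GU
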