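import Mathlib

/-!
# One step of the count of integer matrices with a given determinant (MP_52e316_nt, row CNX)
-/

set_option autoImplicit false

namespace Pool.Agent.H20.GU

open Submodule

open Classical in
/-- lattice points of a ball whose image modulo a rational subspace is not zero and is divisible
by `h`: their number is at most `4 / h` times the number of the points of a larger ball -/
theorem step {Λ : Type} [AddCommGroup Λ] {E : Type} [NormedAddCommGroup E]
    [InnerProductSpace ℝ E] [FiniteDimensional ℝ E] (f : Λ →+ E)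
    (hf : ∀ ρ : ℝ, {v | ‖f v‖ ≤ ρ}.Finite) {k : ℕ} (y : Fin k → Λ) (R : ℝ)
    (hR : ∀ i, ‖f (y i)‖ ≤ R) (h : ℕ) (hh : 1 ≤ h) (W : Submodule ℝ E)
    (hW : W = span ℝ (Set.range fun i => f (y i))) :
    (h : ℝ) * ({v | ‖f v‖ ≤ R ∧ f v ∉ W ∧ ∃ w, f (v - (h : ℤ) • w) ∈ W}.ncard : ℝ) ≤
    4 * ({v | ‖f v‖ ≤ (k + 2) * R}.ncard : ℝ) := by
  set P : Set Λ := {v | ‖f v‖ ≤ R ∧ f v ∉ W ∧ ∃ w, f (v - (h : ℤ) • w) ∈ W} with hP
  have hPf : P.Finite := (hf R).subset fun v hv => hv.1
  rcases P.eq_empty_or_nonempty with hPe | ⟨v0, hv0⟩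
  · rw [hPe, Set.ncard_empty]
    simp
  have hh0 : (0 : ℝ) < h := by exact_mod_cast hh
  have hh1 : (1 : ℝ) ≤ h := by exact_mod_cast hh
  have hR0 : 0 ≤ R := (norm_nonneg _).trans hv0.1
  -- the projection to the orthogonal complement
  set q : Λ →+ E := (Wᗮ.starProjection.toLinearMap.toAddMonoidHom).comp f with hq
  have hqv : ∀ u, q u = f u - W.starProjection (f u) := by
    intro u
    have h1 : q u = Wᗮ.starProjection (f u) := rfl
    rw [h1, starProjection_orthogonal_val]
  have hq0 : ∀ u, f u ∈ W ↔ q u = 0 := by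
    intro u
    rw [hqv, sub_eq_zero]
    constructor
    · intro h1
      exact (starProjection_eq_self_iff.2 h1).symm
    · intro h1
      exact starProjection_eq_self_iff.1 h1.symm
  have hqn : ∀ u, ‖q u‖ ≤ ‖f u‖ := fun u => norm_starProjection_apply_le _ _
  have hpe : ∀ u, f u - q u = W.starProjection (f u) := by
    intro u
    rw [hqv]
    abel
  have hpn : ∀ u, ‖f u - q u‖ ≤ ‖f u‖ := by
    intro u
    rw [hpe]
    exact norm_starProjection_apply_le _ _
  have hpm : ∀ u, f u - q u ∈ W := by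
    intro u
    rw [hpe]
    exact starProjection_apply_mem _ _
  -- reduction
  have hred : ∀ u : Λ, ∃ s : Λ, q s = 0 ∧ ‖(f u - q u) - f s‖ ≤ k * R := by
    intro u
    have h1 := hpm u
    rw [hW, mem_span_range_iff_exists_fun] at h1
    obtain ⟨c, hc⟩ := h1
    refine ⟨∑ i, ⌊c i⌋ • y i, ?_, ?_⟩
    · rw [← hq0, map_sum]
      refine W.sum_mem fun i _ => ?_
      rw [map_zsmul, hW, ← Int.cast_smul_eq_zsmul ℝ]
      exact smul_mem _ _ (subset_span ⟨i, rfl⟩)
    · rw [← hc, map_sum, ← Finset.sum_sub_distrib]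
      refine (norm_sum_le _ _).trans ?_
      have h2 : ∀ i ∈ (Finset.univ : Finset (Fin k)), ‖c i • f (y i) - f (⌊c i⌋ • y i)‖ ≤ R := by
        intro i _
        rw [map_zsmul, ← Int.cast_smul_eq_zsmul ℝ, ← sub_smul, norm_smul, Real.norm_eq_abs,
          Int.self_sub_floor, abs_of_nonneg (Int.fract_nonneg _)]
        calc Int.fract (c i) * ‖f (y i)‖ ≤ 1 * R :=
              mul_le_mul (Int.fract_lt_one _).le (hR i) (norm_nonneg _) zero_le_one
          _ = R := one_mul R
      refine (Finset.sum_le_card_nsmul _ _ _ h2).trans ?_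
      rw [Finset.card_univ, Fintype.card_fin, nsmul_eq_mul]
  choose sg hsg1 hsg2 using hred
  -- the section
  set om : E → Λ := fun e => if hw : ∃ w, (h : ℝ) • q w = e then hw.choose else 0 with hom
  have homs : ∀ v ∈ P, (h : ℝ) • q (om (q v)) = q v := by
    intro v hv
    obtain ⟨w, hw⟩ := hv.2.2
    have h1 : ∃ w, (h : ℝ) • q w = q v := by
      refine ⟨w, ?_⟩
      rw [hq0, map_sub, map_zsmul, sub_eq_zero] at hw
      rw [hw, ← Int.cast_smul_eq_zsmul ℝ]
      norm_cast
    have h2 : om (q v) = h1.choose := by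
      rw [hom]
      exact dif_pos h1
    rw [h2]
    exact h1.choose_spec
  set Y : ℝ := R / h with hY
  have hY0 : 0 ≤ Y := by positivity
  have homn : ∀ v ∈ P, ‖q (om (q v))‖ ≤ Y := by
    intro v hv
    have h1 := congrArg norm (homs v hv)
    rw [norm_smul, Real.norm_eq_abs, abs_of_pos hh0] at h1
    rw [hY, le_div_iff₀ hh0, mul_comm, h1]
    exact (hqn v).trans hv.1
  -- the long vector
  obtain ⟨y1, hy1a, hy1b⟩ : ∃ y1 : Λ, ‖q y1‖ ≤ Y ∧ Y < 2 * ‖q y1‖ := by
    set w0 := om (q v0) with hw0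
    have h1 : 0 < ‖q w0‖ := by
      rw [norm_pos_iff]
      intro h2
      have h3 := homs v0 hv0
      rw [← hw0, h2, smul_zero] at h3
      exact hv0.2.1 ((hq0 v0).2 h3.symm)
    have h2 : ‖q w0‖ ≤ Y := homn v0 hv0
    have h3 : 1 ≤ ⌊Y / ‖q w0‖⌋₊ := by
      rw [Nat.one_le_floor_iff, le_div_iff₀ h1]
      linarith
    have h4 : (⌊Y / ‖q w0‖⌋₊ : ℝ) ≤ Y / ‖q w0‖ := Nat.floor_le (by positivity)
    have h5 : Y / ‖q w0‖ < (⌊Y / ‖q w0‖⌋₊ : ℝ) + 1 := Nat.lt_floor_add_one _
    have h6 : (1 : ℝ) ≤ ⌊Y / ‖q w0‖⌋₊ := by exact_mod_cast h3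
    refine ⟨⌊Y / ‖q w0‖⌋₊ • w0, ?_, ?_⟩
    · rw [map_nsmul, ← Nat.cast_smul_eq_nsmul ℝ, norm_smul, Real.norm_eq_abs,
        abs_of_nonneg (by positivity)]
      rwa [le_div_iff₀ h1] at h4
    · rw [map_nsmul, ← Nat.cast_smul_eq_nsmul ℝ, norm_smul, Real.norm_eq_abs,
        abs_of_nonneg (by positivity)]
      rw [div_lt_iff₀ h1] at h5
      nlinarith
  have hq1 : 0 < ‖q y1‖ := by linarith
  -- the map
  set ba : E → ℕ → Λ := fun e k' => -((h : ℤ) - 1) • om e + (k' : ℤ) • y1 with hba
  set co : E → ℕ → Λ := fun e k' => ba e k' - sg (ba e k') with hco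
  have hqco : ∀ v ∈ P, ∀ k' : ℕ, q (v + co (q v) k') = q (om (q v)) + (k' : ℝ) • q y1 := by
    intro v hv k'
    have h1 := homs v hv
    have h2 : q (co (q v) k') = -((h : ℝ) - 1) • q (om (q v)) + (k' : ℝ) • q y1 := by
      rw [hco]
      simp only [map_sub, hsg1, sub_zero]
      rw [hba]
      simp only [map_add, map_zsmul, ← Int.cast_smul_eq_zsmul ℝ]
      push_cast
      rfl
    rw [map_add, h2]
    calc q v + (-((h : ℝ) - 1) • q (om (q v)) + (k' : ℝ) • q y1) =
        (h : ℝ) • q (om (q v)) + (-((h : ℝ) - 1) • q (om (q v)) + (k' : ℝ) • q y1) := by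
          rw [h1]
      _ = q (om (q v)) + (k' : ℝ) • q y1 := by module
  have hnco : ∀ v ∈ P, ∀ k' < h, ‖f (v + co (q v) k')‖ ≤ (k + 2) * R := by
    intro v hv k' hk'
    have h1 : ‖q (v + co (q v) k')‖ ≤ R := by
      rw [hqco v hv]
      refine (norm_add_le _ _).trans ?_
      rw [norm_smul, Real.norm_eq_abs, abs_of_nonneg (Nat.cast_nonneg _)]
      have h2 := homn v hv
      have h3 : (k' : ℝ) + 1 ≤ h := by exact_mod_cast hk'
      have h4 : (k' : ℝ) * ‖q y1‖ ≤ k' * Y := mul_le_mul_of_nonneg_left hy1a (Nat.cast_nonneg _)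
      have h5 : ((k' : ℝ) + 1) * Y ≤ h * Y := mul_le_mul_of_nonneg_right h3 hY0
      have h6 : (h : ℝ) * Y = R := by
        rw [hY]
        field_simp
      linarith
    have h2 : f (v + co (q v) k') = q (v + co (q v) k') + (f v - q v) +
        (f (ba (q v) k') - q (ba (q v) k') - f (sg (ba (q v) k'))) := by
      have h3 : q (co (q v) k') = q (ba (q v) k') := by
        rw [hco]
        simp only [map_sub, hsg1, sub_zero]
      rw [map_add, map_add q, h3, hco]
      simp only [map_sub]
      abel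
    rw [h2]
    refine (norm_add_le _ _).trans ?_
    have h3 := norm_add_le (q (v + co (q v) k')) (f v - q v)
    have h4 := hsg2 (ba (q v) k')
    have h5 := hpn v
    have h6 := hv.1
    linarith
  -- double counting
  have hBf := hf ((k + 2) * R)
  set S : Finset Λ := hPf.toFinset with hS
  set T : Finset Λ := hBf.toFinset with hT
  have hSm : ∀ v, v ∈ S ↔ v ∈ P := fun v => by rw [hS, Set.Finite.mem_toFinset]
  have key : (S ×ˢ Finset.range h).card ≤ 4 * T.card := by
    refine Finset.card_le_mul_card_image_of_maps_to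
      (f := fun a : Λ × ℕ => a.1 + co (q a.1) a.2) ?_ 4 ?_
    · intro a ha
      rw [Finset.mem_product, Finset.mem_range, hSm] at ha
      rw [hT, Set.Finite.mem_toFinset]
      exact hnco a.1 ha.1 a.2 ha.2
    · intro p _
      set F := {a ∈ S ×ˢ Finset.range h | a.1 + co (q a.1) a.2 = p} with hF
      rcases F.eq_empty_or_nonempty with hFe | hFn
      · rw [hFe]
        simp
      obtain ⟨a0, ha0, hmin⟩ := F.exists_min_image (fun a => a.2) hFn
      have hFm : ∀ a ∈ F, a.1 ∈ P ∧ a.2 < h ∧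
          q (om (q a.1)) + (a.2 : ℝ) • q y1 = q p ∧ a.1 + co (q a.1) a.2 = p := by
        intro a ha
        rw [hF, Finset.mem_filter, Finset.mem_product, Finset.mem_range, hSm] at ha
        exact ⟨ha.1.1, ha.1.2, by rw [← hqco a.1 ha.1.1, ha.2], ha.2⟩
      have h1 : F.card ≤ (Finset.Icc a0.2 (a0.2 + 3)).card := by
        refine Finset.card_le_card_of_injOn (fun a => a.2) ?_ ?_
        · intro a ha
          have hb := hFm a ha
          have hc := hFm a0 ha0
          rw [Finset.coe_Icc, Set.mem_Icc]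
          refine ⟨hmin a ha, ?_⟩
          by_contra hlt
          push Not at hlt
          have hd : (a0.2 : ℝ) + 4 ≤ a.2 := by exact_mod_cast hlt
          have he : ((a.2 : ℝ) - a0.2) • q y1 = q (om (q a0.1)) - q (om (q a.1)) := by
            have h2 := hb.2.2.1.trans hc.2.2.1.symm
            rw [sub_smul]
            rw [sub_eq_sub_iff_add_eq_add, add_comm, h2, add_comm]
          have hg := congrArg norm he
          rw [norm_smul, Real.norm_eq_abs, abs_of_nonneg (by linarith)] at hg
          have hi := norm_sub_le (q (om (q a0.1))) (q (om (q a.1)))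
          have hj := homn a0.1 hc.1
          have hk := homn a.1 hb.1
          nlinarith
        · intro a ha a' ha' haa
          have hb := hFm a ha
          have hc := hFm a' ha'
          have haa' : a.2 = a'.2 := haa
          have h2 : q (om (q a.1)) = q (om (q a'.1)) := by
            have h3 := hb.2.2.1.trans hc.2.2.1.symm
            rw [haa'] at h3
            exact add_right_cancel h3
          have h3 : q a.1 = q a'.1 := by
            rw [← homs a.1 hb.1, ← homs a'.1 hc.1, h2]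
          have h4 := hb.2.2.2.trans hc.2.2.2.symm
          rw [h3, haa'] at h4
          exact Prod.ext (add_right_cancel h4) haa'
      rw [Nat.card_Icc] at h1
      omega
  rw [Finset.card_product, Finset.card_range] at key
  rw [Set.ncard_eq_toFinset_card P hPf, Set.ncard_eq_toFinset_card _ hBf, ← hS, ← hT]
  have key2 : ((S.card * h : ℕ) : ℝ) ≤ ((4 * T.card : ℕ) : ℝ) := by exact_mod_cast key
  push_cast at key2
  linarith

end Pool.Agent.H20.GU
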